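import Mathlib

namespace Pool.Agent.Results.MP_cc6741_nt.DerangementSum

open Equiv Finset

/-- The weighted sum over all permutations; since `0⁻¹ = 0` only derangements contribute. -/
noncomputable def F (χ : ℤˣ →* ℂ) {α : Type} [Fintype α] [DecidableEq α] (x : α → ℂ) : ℂ :=
  ∑ σ : Perm α, χ (Perm.sign σ) * ∏ i, (x (σ i) - x i)⁻¹

lemma F_equiv (χ : ℤˣ →* ℂ) {α β : Type} [Fintype α] [DecidableEq α] [Fintype β] [DecidableEq β]
    (e : β ≃ α) (x : α → ℂ) : F χ (x ∘ e) = F χ x := by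
  unfold F
  refine Fintype.sum_equiv e.permCongr _ _ ?_
  intro σ
  have h1 : Perm.sign (e.permCongr σ) = Perm.sign σ := Perm.sign_permCongr e σ
  rw [h1]
  congr 1
  refine Fintype.prod_equiv e _ _ ?_
  intro i
  simp [Equiv.permCongr_apply]

lemma ptwise {α : Type} [Fintype α] [DecidableEq α] (x : α → ℂ) (a : ℂ)
    (ha : ∀ c, x c ≠ a) (hx : Function.Injective x) (τ : Perm α) (c0 : α) :
    (x (τ c0) - a)⁻¹ * ((a - x c0)⁻¹ * ∏ c ∈ univ.erase c0, (x (τ c) - x c)⁻¹)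
      = (if τ c0 = c0 then
          -((a - x c0)⁻¹ ^ 2 * ∏ c ∈ univ.erase c0, (x (τ c) - x c)⁻¹) else 0)
        + ((a - x c0)⁻¹ + (x (τ c0) - a)⁻¹) * ∏ c, (x (τ c) - x c)⁻¹ := by
  have h1 : a - x c0 ≠ 0 := sub_ne_zero.mpr (ha c0).symm
  have h2 : x (τ c0) - a ≠ 0 := sub_ne_zero.mpr (ha _)
  have h3 : ∏ c, (x (τ c) - x c)⁻¹
      = (x (τ c0) - x c0)⁻¹ * ∏ c ∈ univ.erase c0, (x (τ c) - x c)⁻¹ :=
    (Finset.mul_prod_erase univ _ (mem_univ c0)).symm
  rw [h3]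
  generalize ∏ c ∈ univ.erase c0, (x (τ c) - x c)⁻¹ = P
  split_ifs with h
  · rw [h]
    have : x c0 - a = -(a - x c0) := by ring
    simp only [sub_self, inv_zero, zero_mul, mul_zero, add_zero, this]
    rw [inv_neg]; ring
  · have h4 : x (τ c0) - x c0 ≠ 0 := sub_ne_zero.mpr (fun h' => h (hx h'))
    field_simp
    ring

lemma inner_zero {α : Type} [Fintype α] [DecidableEq α] (x : α → ℂ) (a : ℂ) (τ : Perm α) :
    ∑ c0, ((a - x c0)⁻¹ + (x (τ c0) - a)⁻¹) = 0 := by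
  rw [Finset.sum_add_distrib, Equiv.sum_comp τ (fun c => (x c - a)⁻¹), ← Finset.sum_add_distrib]
  refine Finset.sum_eq_zero ?_
  intro c _
  have : x c - a = -(a - x c) := by ring
  rw [this, inv_neg]; ring

lemma sum_fix (χ : ℤˣ →* ℂ) {α : Type} [Fintype α] [DecidableEq α] (x : α → ℂ) (c0 : α) :
    ∑ τ : Perm α, (if τ c0 = c0 then
        χ (Perm.sign τ) * ∏ c ∈ univ.erase c0, (x (τ c) - x c)⁻¹ else 0)
      = F χ (fun c : {c // c ≠ c0} => x c) := by
  unfold F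
  rw [← Finset.sum_filter]
  symm
  refine Finset.sum_bij' (fun ρ _ => Perm.ofSubtype ρ)
    (fun τ hτ => (Perm.subtypeEquivSubtypePerm (fun c => c ≠ c0)).symm
      ⟨τ, fun a ha => by
        have : a = c0 := by simpa using ha
        rw [this]; exact (Finset.mem_filter.mp hτ).2⟩) ?_ ?_ ?_ ?_ ?_
  · intro ρ _
    simp only [Finset.mem_filter, Finset.mem_univ, true_and]
    exact Perm.ofSubtype_apply_of_not_mem ρ (by simp)
  · intro τ _; exact Finset.mem_univ _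
  · intro ρ _
    rw [Equiv.symm_apply_eq]
    apply Subtype.ext
    ext a
    simp [Perm.subtypeEquivSubtypePerm]
  · intro τ hτ
    have := (Perm.subtypeEquivSubtypePerm (fun c => c ≠ c0)).apply_symm_apply
      ⟨τ, fun a ha => by
        have : a = c0 := by simpa using ha
        rw [this]; exact (Finset.mem_filter.mp hτ).2⟩
    exact congrArg Subtype.val this
  · intro ρ _
    rw [Perm.sign_ofSubtype]
    congr 1
    rw [Finset.prod_subtype (univ.erase c0) (p := fun c => c ≠ c0) (by simp)]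
    refine Finset.prod_congr rfl ?_
    intro c _
    rw [Perm.ofSubtype_apply_coe]

lemma F_option (χ : ℤˣ →* ℂ) {α : Type} [Fintype α] [DecidableEq α] (x : Option α → ℂ)
    (hx : Function.Injective x) :
    F χ x = -(χ (-1)) * ∑ c0 : α, (x none - x (some c0))⁻¹ ^ 2
      * F χ (fun c : {c // c ≠ c0} => x (some c)) := by
  have key : F χ x = ∑ τ : Perm α, ∑ c0 : α, (χ (-1) * χ (Perm.sign τ)) *
      ((x (some (τ c0)) - x none)⁻¹ * ((x none - x (some c0))⁻¹ *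
        ∏ c ∈ univ.erase c0, (x (some (τ c)) - x (some c))⁻¹)) := by
    unfold F
    rw [← Equiv.sum_comp Equiv.Perm.decomposeOption.symm, Fintype.sum_prod_type,
      Finset.sum_comm]
    refine Finset.sum_congr rfl ?_
    intro τ _
    rw [Fintype.sum_option]
    have h0 : χ (Perm.sign (Equiv.Perm.decomposeOption.symm (none, τ))) *
        ∏ i, (x ((Equiv.Perm.decomposeOption.symm (none, τ)) i) - x i)⁻¹ = 0 := by
      rw [Fintype.prod_option]
      simp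
    rw [h0, zero_add, ← Equiv.sum_comp τ]
    refine Finset.sum_congr rfl ?_
    intro c0 _
    have hs : Perm.sign (Equiv.Perm.decomposeOption.symm (some (τ c0), τ))
        = -1 * Perm.sign τ := by
      simp
    rw [hs, map_mul, Fintype.prod_option]
    have e0 : (Equiv.Perm.decomposeOption.symm (some (τ c0), τ)) none = some (τ c0) := by simp
    have e1 : (Equiv.Perm.decomposeOption.symm (some (τ c0), τ)) (some c0) = none := by simp
    rw [e0, ← Finset.mul_prod_erase univ _ (mem_univ c0), e1]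
    have e2 : ∏ c ∈ univ.erase c0,
        (x ((Equiv.Perm.decomposeOption.symm (some (τ c0), τ)) (some c)) - x (some c))⁻¹
        = ∏ c ∈ univ.erase c0, (x (some (τ c)) - x (some c))⁻¹ := by
      refine Finset.prod_congr rfl ?_
      intro c hc
      have hc' : c ≠ c0 := (Finset.mem_erase.mp hc).1
      have : (Equiv.Perm.decomposeOption.symm (some (τ c0), τ)) (some c) = some (τ c) := by
        simp only [Equiv.Perm.decomposeOption_symm_apply, Perm.coe_mul, Function.comp_apply,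
          Equiv.optionCongr_apply, Option.map_some]
        apply Equiv.swap_apply_of_ne_of_ne
        · simp
        · simpa using hc'
      rw [this]
    rw [e2]
  rw [key]
  have step : ∀ τ : Perm α, ∑ c0 : α, (χ (-1) * χ (Perm.sign τ)) *
      ((x (some (τ c0)) - x none)⁻¹ * ((x none - x (some c0))⁻¹ *
        ∏ c ∈ univ.erase c0, (x (some (τ c)) - x (some c))⁻¹))
      = ∑ c0 : α, -(χ (-1)) * ((x none - x (some c0))⁻¹ ^ 2 * (if τ c0 = c0 then
          χ (Perm.sign τ) * ∏ c ∈ univ.erase c0, (x (some (τ c)) - x (some c))⁻¹ else 0)) := by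
    intro τ
    have h1 : ∀ c0 : α, (x (some (τ c0)) - x none)⁻¹ * ((x none - x (some c0))⁻¹ *
        ∏ c ∈ univ.erase c0, (x (some (τ c)) - x (some c))⁻¹) = _ := fun c0 =>
      ptwise (fun c => x (some c)) (x none) (fun c h => by simpa using hx h)
        (fun a b h => by simpa using hx h) τ c0
    simp_rw [h1, mul_add, Finset.sum_add_distrib]
    rw [← Finset.mul_sum, ← Finset.mul_sum, ← Finset.sum_mul,
      inner_zero (fun c => x (some c)) (x none) τ, zero_mul, mul_zero, add_zero, Finset.mul_sum]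
    refine Finset.sum_congr rfl ?_
    intro c0 _
    split_ifs <;> ring
  rw [Finset.sum_congr rfl (fun τ _ => step τ), Finset.sum_comm, Finset.mul_sum]
  refine Finset.sum_congr rfl ?_
  intro c0 _
  rw [← Finset.mul_sum, ← Finset.mul_sum, sum_fix χ (fun c => x (some c)) c0]

/-- the sign character -/
noncomputable def sgn : ℤˣ →* ℂ := (Int.castRingHom ℂ).toMonoidHom.comp (Units.coeHom ℤ)

lemma F_one_eq (n : ℕ) : ∀ {α : Type} [Fintype α] [DecidableEq α] (x : α → ℂ),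
    Fintype.card α = n → Function.Injective x → F 1 x = (-1) ^ (n / 2) * F sgn x := by
  induction n using Nat.strong_induction_on with
  | _ n ih =>
    intro α _ _ x hcard hx
    rcases Nat.eq_zero_or_pos n with rfl | hpos
    · have : IsEmpty α := Fintype.card_eq_zero_iff.mp hcard
      simp [F]
    · have : Nonempty α := Fintype.card_pos_iff.mp (by omega)
      let a : α := Classical.arbitrary α
      let e : Option {c // c ≠ a} ≃ α := Equiv.optionSubtypeNe a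
      have hx' : Function.Injective (x ∘ e) := hx.comp e.injective
      rw [← F_equiv 1 e x, ← F_equiv sgn e x, F_option 1 _ hx', F_option sgn _ hx']
      have hsgn : sgn (-1) = -1 := by simp [sgn]
      rw [hsgn]
      simp only [MonoidHom.one_apply, neg_neg, one_mul]
      rw [Finset.mul_sum, Finset.mul_sum]
      refine Finset.sum_congr rfl ?_
      intro c0 _
      have hc1 : Fintype.card {c // c ≠ a} = n - 1 := by
        rw [Fintype.card_subtype_compl, hcard]; simp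
      have hc2 : Fintype.card {c : {c // c ≠ a} // c ≠ c0} = n - 2 := by
        rw [Fintype.card_subtype_compl, hc1]; simp; omega
      have hn2 : 2 ≤ n := by
        have : 0 < Fintype.card {c // c ≠ a} := Fintype.card_pos_iff.mpr ⟨c0⟩
        omega
      rw [ih (n - 2) (by omega) (fun c : {c : {c // c ≠ a} // c ≠ c0} => (x ∘ e) (some c)) hc2
        (fun u v h => by simpa [Subtype.ext_iff] using hx' h)]
      have : n / 2 = (n - 2) / 2 + 1 := by omega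
      rw [this, pow_succ]
      ring


section det

variable {n : ℕ} {ζ : ℂ}

lemma pow_sum_zero (hζ : IsPrimitiveRoot ζ n) (hn : 1 < n) (i : Fin n) (s : ℕ) (hs : 1 ≤ s)
    (hsn : s < n) : ∑ j : Fin n, (ζ ^ (j : ℕ) / ζ ^ (i : ℕ)) ^ s = 0 := by
  have hs1 : ζ ^ s ≠ 1 := hζ.pow_ne_one_of_pos_of_lt (by omega) hsn
  have h : ∑ j : Fin n, (ζ ^ s) ^ (j : ℕ) = 0 := by
    rw [Fin.sum_univ_eq_sum_range (fun j => (ζ ^ s) ^ j) n]
    have := mul_neg_geom_sum (ζ ^ s) n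
    have h2 : (ζ ^ s) ^ n = 1 := by rw [← pow_mul, mul_comm, pow_mul, hζ.pow_eq_one, one_pow]
    rw [h2, sub_self] at this
    rcases mul_eq_zero.mp this with h3 | h3
    · exact absurd (sub_eq_zero.mp h3).symm hs1
    · exact h3
  have : ∀ j : Fin n, (ζ ^ (j : ℕ) / ζ ^ (i : ℕ)) ^ s = (ζ ^ s) ^ (j : ℕ) * ((ζ ^ (i : ℕ)) ^ s)⁻¹ := by
    intro j
    rw [div_pow, div_eq_mul_inv]
    congr 1
    rw [← pow_mul, ← pow_mul, mul_comm]
  simp_rw [this]
  rw [← Finset.sum_mul, h, zero_mul]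

/-- the eigenvalue sums -/
noncomputable def S (ζ : ℂ) {n : ℕ} (i : Fin n) (s : ℕ) : ℂ :=
  ∑ j : Fin n, (1 - ζ ^ (j : ℕ) / ζ ^ (i : ℕ))⁻¹ * (ζ ^ (j : ℕ) / ζ ^ (i : ℕ)) ^ s

lemma ratio_eq_one (hζ : IsPrimitiveRoot ζ n) (hn : 1 < n) (i j : Fin n) :
    ζ ^ (j : ℕ) / ζ ^ (i : ℕ) = 1 ↔ j = i := by
  have h0 : ζ ≠ 0 := hζ.ne_zero (by omega)
  rw [div_eq_one_iff_eq (pow_ne_zero _ h0)]
  constructor
  · intro h
    exact Fin.ext (hζ.pow_inj j.2 i.2 h)
  · intro h; rw [h]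

lemma S_succ (hζ : IsPrimitiveRoot ζ n) (hn : 1 < n) (i : Fin n) (s : ℕ) (hs : 1 ≤ s)
    (hsn : s < n) : S ζ i (s + 1) = S ζ i s + 1 := by
  have h1 : ∀ j : Fin n, (1 - ζ ^ (j : ℕ) / ζ ^ (i : ℕ))⁻¹ * (ζ ^ (j : ℕ) / ζ ^ (i : ℕ)) ^ (s + 1)
      = (1 - ζ ^ (j : ℕ) / ζ ^ (i : ℕ))⁻¹ * (ζ ^ (j : ℕ) / ζ ^ (i : ℕ)) ^ s
        - (ζ ^ (j : ℕ) / ζ ^ (i : ℕ)) ^ s + (if j = i then 1 else 0) := by
    intro j
    split_ifs with h
    · have : ζ ^ (j : ℕ) / ζ ^ (i : ℕ) = 1 := (ratio_eq_one hζ hn i j).mpr h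
      rw [this]; simp
    · have h2 : 1 - ζ ^ (j : ℕ) / ζ ^ (i : ℕ) ≠ 0 := by
        intro h3
        exact h ((ratio_eq_one hζ hn i j).mp (sub_eq_zero.mp h3).symm)
      generalize ζ ^ (j : ℕ) / ζ ^ (i : ℕ) = z at *
      field_simp
      ring
  unfold S
  simp_rw [h1]
  rw [Finset.sum_add_distrib, Finset.sum_sub_distrib, pow_sum_zero hζ hn i s hs hsn]
  simp

lemma S_lin (hζ : IsPrimitiveRoot ζ n) (hn : 1 < n) (i : Fin n) (s : ℕ) (hsn : s < n) :
    S ζ i (s + 1) = S ζ i 1 + s := by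
  induction s with
  | zero => simp
  | succ s ih =>
    rw [S_succ hζ hn i (s + 1) (by omega) (by omega), ih (by omega)]
    push_cast; ring

lemma S_total (hζ : IsPrimitiveRoot ζ n) (hn : 1 < n) (i : Fin n) :
    ∑ s ∈ Finset.range n, S ζ i (s + 1) = 0 := by
  unfold S
  rw [Finset.sum_comm]
  refine Finset.sum_eq_zero ?_
  intro j _
  rw [← Finset.mul_sum]
  by_cases h : j = i
  · have : ζ ^ (j : ℕ) / ζ ^ (i : ℕ) = 1 := (ratio_eq_one hζ hn i j).mpr h
    rw [this]; simp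
  · have h2 : 1 - ζ ^ (j : ℕ) / ζ ^ (i : ℕ) ≠ 0 := by
      intro h3
      exact h ((ratio_eq_one hζ hn i j).mp (sub_eq_zero.mp h3).symm)
    have h4 : (ζ ^ (j : ℕ) / ζ ^ (i : ℕ)) ^ n = 1 := by
      rw [div_pow, ← pow_mul, ← pow_mul, mul_comm, pow_mul, hζ.pow_eq_one, mul_comm, pow_mul,
        hζ.pow_eq_one, one_pow, one_pow, div_one]
    have h5 : ∑ s ∈ Finset.range n, (ζ ^ (j : ℕ) / ζ ^ (i : ℕ)) ^ (s + 1) = 0 := by
      simp_rw [pow_succ]
      rw [← Finset.sum_mul]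
      have := mul_neg_geom_sum (ζ ^ (j : ℕ) / ζ ^ (i : ℕ)) n
      rw [h4, sub_self] at this
      rcases mul_eq_zero.mp this with h6 | h6
      · exact absurd h6 h2
      · rw [h6, zero_mul]
    rw [h5, mul_zero]

lemma S_val (hζ : IsPrimitiveRoot ζ n) (hn : 1 < n) (i : Fin n) (s : ℕ) (hsn : s < n) :
    S ζ i (s + 1) = s - ((n : ℂ) - 1) / 2 := by
  have h1 := S_total hζ hn i
  rw [Finset.sum_congr rfl (fun s hs => S_lin hζ hn i s (Finset.mem_range.mp hs)),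
    Finset.sum_add_distrib] at h1
  have h2 : (∑ s ∈ Finset.range n, (s : ℂ)) = n * ((n : ℂ) - 1) / 2 := by
    have := Finset.sum_range_id_mul_two n
    have h3 : ((∑ s ∈ Finset.range n, s : ℕ) : ℂ) * 2 = (n : ℂ) * ((n - 1 : ℕ) : ℂ) := by
      exact_mod_cast this
    rw [Nat.cast_sub (by omega)] at h3
    push_cast at h3
    linear_combination h3 / 2
  rw [h2] at h1
  simp only [Finset.sum_const, Finset.card_range, nsmul_eq_mul] at h1
  have hn0 : (n : ℂ) ≠ 0 := by exact_mod_cast (by omega : n ≠ 0)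
  have h3 : S ζ i 1 = -(((n : ℂ) - 1) / 2) := by
    have : (n : ℂ) * (S ζ i 1 + ((n : ℂ) - 1) / 2) = 0 := by linear_combination h1
    rcases mul_eq_zero.mp this with h | h
    · exact absurd h hn0
    · linear_combination h
  rw [S_lin hζ hn i s hsn, h3]; ring

/-- the Calogero-Perelomov matrix -/
noncomputable def M (ζ : ℂ) (n : ℕ) : Matrix (Fin n) (Fin n) ℂ :=
  fun i j => (1 - ζ ^ (j : ℕ) / ζ ^ (i : ℕ))⁻¹

lemma det_M (hζ : IsPrimitiveRoot ζ n) (hn : 1 < n) :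
    (M ζ n).det = ∏ s ∈ Finset.range n, ((s : ℂ) - ((n : ℂ) - 1) / 2) := by
  have h0 : ζ ≠ 0 := hζ.ne_zero (by omega)
  let V : Matrix (Fin n) (Fin n) ℂ := Matrix.of fun j s => ζ ^ (j : ℕ) * (ζ ^ (j : ℕ)) ^ (s : ℕ)
  have hV : V = Matrix.diagonal (fun j : Fin n => ζ ^ (j : ℕ)) *
      Matrix.vandermonde (fun j : Fin n => ζ ^ (j : ℕ)) := by
    ext j s
    simp [V, Matrix.diagonal_mul, Matrix.vandermonde_apply]
  have hVdet : V.det ≠ 0 := by
    rw [hV, Matrix.det_mul, Matrix.det_diagonal]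
    refine mul_ne_zero (Finset.prod_ne_zero_iff.mpr fun j _ => pow_ne_zero _ h0) ?_
    rw [Matrix.det_vandermonde_ne_zero_iff]
    intro i j hij
    exact Fin.ext (hζ.pow_inj i.2 j.2 hij)
  have hMV : M ζ n * V = V * Matrix.diagonal (fun s : Fin n => ((s : ℕ) : ℂ) - ((n : ℂ) - 1) / 2) := by
    ext i s
    rw [Matrix.mul_apply, Matrix.mul_diagonal, ← S_val hζ hn i s s.2]
    unfold S
    simp only [V, M, Matrix.of_apply]
    rw [Finset.mul_sum]
    refine Finset.sum_congr rfl ?_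
    intro j _
    have h1 : ζ ^ (i : ℕ) ≠ 0 := pow_ne_zero _ h0
    have h2 : ζ ^ (i : ℕ) * (ζ ^ (i : ℕ)) ^ (s : ℕ) * (ζ ^ (j : ℕ) / ζ ^ (i : ℕ)) ^ ((s : ℕ) + 1)
        = ζ ^ (j : ℕ) * (ζ ^ (j : ℕ)) ^ (s : ℕ) := by
      rw [div_pow, pow_succ, pow_succ]
      field_simp
    rw [← h2]; ring
  have h3 : (M ζ n).det * V.det = V.det * ∏ s : Fin n, (((s : ℕ) : ℂ) - ((n : ℂ) - 1) / 2) := by
    rw [← Matrix.det_mul, hMV, Matrix.det_mul, Matrix.det_diagonal]
  rw [mul_comm] at h3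
  rw [mul_left_cancel₀ hVdet h3,
    Fin.prod_univ_eq_prod_range (fun s => ((s : ℂ) - ((n : ℂ) - 1) / 2)) n]

open Nat in
lemma prod_val (m : ℕ) : ∏ s ∈ Finset.range (2 * m), ((s : ℂ) - (((2 * m : ℕ) : ℂ) - 1) / 2)
    = (-1) ^ m * (((2 * m - 1)‼ : ℕ) : ℂ) ^ 2 / 2 ^ (2 * m) := by
  induction m with
  | zero => simp
  | succ m ih =>
    have h1 : 2 * (m + 1) = 2 * m + 1 + 1 := by ring
    rw [h1, Finset.prod_range_succ, Finset.prod_range_succ']
    have h2 : ∏ k ∈ Finset.range (2 * m), (((k + 1 : ℕ) : ℂ) - (((2 * m + 1 + 1 : ℕ) : ℂ) - 1) / 2)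
        = ∏ s ∈ Finset.range (2 * m), ((s : ℂ) - (((2 * m : ℕ) : ℂ) - 1) / 2) := by
      refine Finset.prod_congr rfl ?_
      intro k _
      push_cast; ring
    rw [h2, ih]
    have h3 : ((2 * m + 1 + 1 - 1)‼ : ℕ) = (2 * m + 1) * (2 * m - 1)‼ := by
      rcases m with _ | m
      · simp
      · have : 2 * (m + 1) + 1 + 1 - 1 = (2 * m + 1) + 2 := by omega
        rw [this, Nat.doubleFactorial_add_two]
        have h4 : 2 * (m + 1) - 1 = 2 * m + 1 := by omega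
        rw [h4]
        ring_nf
    rw [h3]
    push_cast
    field_simp
    ring

end det

lemma term_eq {n : ℕ} {ζ : ℂ} (hζ : IsPrimitiveRoot ζ n) (hn : 1 < n) (i j : Fin n) :
    (1 - ζ ^ (i : ℕ) / ζ ^ (j : ℕ))⁻¹ = ζ ^ (j : ℕ) * (ζ ^ (j : ℕ) - ζ ^ (i : ℕ))⁻¹ := by
  have h0 : ζ ≠ 0 := hζ.ne_zero (by omega)
  have h1 : ζ ^ (j : ℕ) ≠ 0 := pow_ne_zero _ h0
  have h2 : 1 - ζ ^ (i : ℕ) / ζ ^ (j : ℕ) = (ζ ^ (j : ℕ))⁻¹ * (ζ ^ (j : ℕ) - ζ ^ (i : ℕ)) := by
    field_simp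
  rw [h2, mul_inv, inv_inv]

lemma sum_signed {n : ℕ} {ζ : ℂ} (hζ : IsPrimitiveRoot ζ n) (hn : 1 < n) :
    (∏ j : Fin n, ζ ^ (j : ℕ)) * F sgn (fun j : Fin n => ζ ^ (j : ℕ)) = (M ζ n).det := by
  rw [Matrix.det_apply', F, Finset.mul_sum]
  refine Finset.sum_congr rfl ?_
  intro σ _
  unfold M
  simp_rw [term_eq hζ hn]
  rw [Finset.prod_mul_distrib, Equiv.prod_comp σ (fun j : Fin n => ζ ^ (j : ℕ))]
  simp [sgn]
  ring

lemma sum_unsigned {n : ℕ} {ζ : ℂ} (hζ : IsPrimitiveRoot ζ n) (hn : 1 < n) :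
    (∑ τ : derangements (Fin n), ∏ j : Fin n,
        1 / (1 - ζ ^ (((j : ℕ) : ℤ) - (((τ : Equiv.Perm (Fin n)) j : ℕ) : ℤ))))
      = (∏ j : Fin n, ζ ^ (j : ℕ)) * F 1 (fun j : Fin n => ζ ^ (j : ℕ)) := by
  have h0 : ζ ≠ 0 := hζ.ne_zero (by omega)
  have hterm : ∀ σ : Equiv.Perm (Fin n), ∀ j : Fin n,
      1 / (1 - ζ ^ (((j : ℕ) : ℤ) - ((σ j : ℕ) : ℤ)))
        = ζ ^ ((σ j : Fin n) : ℕ) * (ζ ^ ((σ j : Fin n) : ℕ) - ζ ^ (j : ℕ))⁻¹ := by
    intro σ j
    rw [one_div, zpow_sub₀ h0, zpow_natCast, zpow_natCast, term_eq hζ hn]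
  have hsum : (∑ τ : derangements (Fin n), ∏ j : Fin n,
        1 / (1 - ζ ^ (((j : ℕ) : ℤ) - (((τ : Equiv.Perm (Fin n)) j : ℕ) : ℤ))))
      = ∑ σ : Equiv.Perm (Fin n), ∏ j : Fin n,
        1 / (1 - ζ ^ (((j : ℕ) : ℤ) - ((σ j : ℕ) : ℤ))) := by
    have e1 := Finset.sum_subtype (F := inferInstance)
      (s := Finset.univ.filter (fun σ => σ ∈ derangements (Fin n)))
      (p := fun σ => σ ∈ derangements (Fin n)) (by intro x; simp)
      (fun σ => ∏ j : Fin n, 1 / (1 - ζ ^ (((j : ℕ) : ℤ) - ((σ j : ℕ) : ℤ))))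
    refine Eq.trans e1.symm ?_
    refine Finset.sum_subset (Finset.filter_subset _ _) ?_
    intro σ _ hσ
    have h1 : ¬ σ ∈ derangements (Fin n) := by simpa using hσ
    have h2 : ∃ j, σ j = j := by
      by_contra h
      push Not at h
      exact h1 h
    obtain ⟨j, hj⟩ := h2
    refine Finset.prod_eq_zero (Finset.mem_univ j) ?_
    rw [hj]; simp
  rw [hsum, F, Finset.mul_sum]
  refine Finset.sum_congr rfl ?_
  intro σ _
  simp_rw [hterm]
  rw [Finset.prod_mul_distrib, Equiv.prod_comp σ (fun j : Fin n => ζ ^ (j : ℕ))]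
  simp

open Nat in
theorem result (n : ℕ) (hn : 1 < n) (heven : Even n) (ζ : ℂ) (hζ : IsPrimitiveRoot ζ n) :
    (∑ τ : derangements (Fin n), ∏ j : Fin n,
        1 / (1 - ζ ^ (((j : ℕ) : ℤ) - (((τ : Equiv.Perm (Fin n)) j : ℕ) : ℤ))))
      = (((n - 1)‼ : ℕ) : ℂ) ^ 2 / 2 ^ n ∧
    (((n - 1)‼ : ℕ) : ℂ) ^ 2 / 2 ^ n = ((n ! : ℕ) : ℂ) / 4 ^ n * ((n.choose (n / 2) : ℕ) : ℂ) := by
  have hinj : Function.Injective (fun j : Fin n => ζ ^ (j : ℕ)) := by
    intro i j hij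
    exact Fin.ext (hζ.pow_inj i.2 j.2 hij)
  obtain ⟨m, hm⟩ := heven
  have hm' : n = 2 * m := by omega
  constructor
  · rw [sum_unsigned hζ hn, F_one_eq n _ (by simp) hinj]
    have h1 := sum_signed hζ hn
    rw [det_M hζ hn] at h1
    have h2 : (∏ j : Fin n, ζ ^ (j : ℕ)) * ((-1) ^ (n / 2) * F sgn (fun j : Fin n => ζ ^ (j : ℕ)))
        = (-1) ^ (n / 2) * ((∏ j : Fin n, ζ ^ (j : ℕ)) * F sgn (fun j : Fin n => ζ ^ (j : ℕ))) := by
      ring
    rw [h2, h1]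
    have h3 : n / 2 = m := by omega
    rw [h3]
    subst hm'
    rw [prod_val m]
    have h4 : ((-1 : ℂ) ^ m) * (-1) ^ m = 1 := by
      rw [← mul_pow]; simp
    linear_combination ((((2 * m - 1)‼ : ℕ) : ℂ) ^ 2 / 2 ^ (2 * m)) * h4
  · subst hm'
    have h3 : 2 * m / 2 = m := by omega
    rw [h3]
    have hm0 : m ≠ 0 := by omega
    obtain ⟨k, rfl⟩ : ∃ k, m = k + 1 := ⟨m - 1, by omega⟩
    have e1 : (2 * (k + 1)) ! = (2 * (k + 1))‼ * (2 * (k + 1) - 1)‼ := by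
      have : 2 * (k + 1) = (2 * (k + 1) - 1) + 1 := by omega
      rw [this, Nat.factorial_eq_mul_doubleFactorial]
      simp
    have e2 : (2 * (k + 1))‼ = 2 ^ (k + 1) * (k + 1)! := Nat.doubleFactorial_two_mul (k + 1)
    have e3 : (2 * (k + 1)).choose (k + 1) * (k + 1)! * (k + 1)! = (2 * (k + 1)) ! := by
      have := Nat.choose_mul_factorial_mul_factorial (show k + 1 ≤ 2 * (k + 1) by omega)
      have h4 : 2 * (k + 1) - (k + 1) = k + 1 := by omega
      rwa [h4] at this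
    have hf : ((k + 1)! : ℂ) ≠ 0 := by exact_mod_cast Nat.factorial_ne_zero _
    have e1' : (((2 * (k + 1)) ! : ℕ) : ℂ) = (2 ^ (k + 1) * ((k + 1)! : ℂ)) * (((2 * (k + 1) - 1)‼ : ℕ) : ℂ) := by
      rw [e1, e2]; push_cast; ring
    have e3' : (((2 * (k + 1)).choose (k + 1) : ℕ) : ℂ) * ((k + 1)! : ℂ) * ((k + 1)! : ℂ)
        = (((2 * (k + 1)) ! : ℕ) : ℂ) := by exact_mod_cast e3
    generalize (((2 * (k + 1)).choose (k + 1) : ℕ) : ℂ) = C at *
    generalize (((2 * (k + 1)) ! : ℕ) : ℂ) = A at *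
    generalize (((2 * (k + 1) - 1)‼ : ℕ) : ℂ) = B at *
    generalize ((k + 1)! : ℂ) = G at *
    have hC : C = A / (G * G) := by field_simp; linear_combination e3'
    rw [hC, e1']
    have h4 : (4 : ℂ) ^ (2 * (k + 1)) = 2 ^ (2 * (k + 1)) * (2 ^ (k + 1) * 2 ^ (k + 1)) := by
      rw [← pow_add, ← pow_add, show (4 : ℂ) = 2 ^ 2 by norm_num, ← pow_mul]
      congr 1; ring
    rw [h4]
    field_simp

end Pool.Agent.Results.MP_cc6741_nt.DerangementSum
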